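import Pool.Agent.Y205.FW.Defs

/-! Independence for a sequence of row lengths from one node. -/

set_option autoImplicit false

namespace Pool.Agent.Y100.FW

open Finset Pool.Agent.TH176.Nag Pool.Agent.TH603.Sur Pool.Agent.TH745.MN Filter Topology
open Pool.Agent.Y205.FW

/-- transfer of independence, for finitely many conditions -/
theorem transferF {ι : Type} [Fintype ι] {w : ι → ℕ} {S S' : Finset (ℤ × ℤ)}
    (hc : S'.card ≤ S.card)
    (h : ∀ (κ : Type) [Finite κ] (v : κ → ℕ), Emp v (↑S' : Set (ℤ × ℤ)) →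
      Emp v (↑S : Set (ℤ × ℤ)))
    (h' : Sur w (↑S' : Set (ℤ × ℤ))) : Sur w (↑S : Set (ℤ × ℤ)) := by
  classical
  obtain ⟨T, h1, h2, h3⟩ := h'
  have h1' : T ⊆ S' := by exact_mod_cast h1
  have h4 := Emp_union h3 (S' \ T)
  rw [union_sdiff_of_subset h1'] at h4
  refine Sur_of_Emp (S' \ T).card ?_ (h _ _ h4)
  rw [card_sdiff_of_subset h1', ← h2]
  have := card_le_card h1'
  omega

/-- the rows at the node -/
noncomputable def rS (m : ℕ → ℕ) (a b : ℝ) (ω : ℕ → ℝ) (l : ℕ) : Finset (ℤ × ℤ) :=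
  Ioo (-(⌈ω (m l) / b⌉₊ : ℤ)) (⌈ω (m l) / a⌉₊ : ℤ) ×ˢ {(l : ℤ)}

/-- the rows in the plane -/
noncomputable def rW (m : ℕ → ℕ) (l : ℕ) : Finset (ℤ × ℤ) :=
  Icc (0 : ℤ) (m l : ℤ) ×ˢ {(2 * l : ℤ)} ∪ Icc (0 : ℤ) (m l - 2 : ℤ) ×ˢ {(2 * l + 1 : ℤ)}

theorem card_rS (m : ℕ → ℕ) {a b : ℝ} (ha : 0 < a) {ω : ℕ → ℝ} (hω : ∀ W, 0 < ω W) (l : ℕ) :
    (rS m a b ω l).card + 1 = ⌈ω (m l) / a⌉₊ + ⌈ω (m l) / b⌉₊ := by
  unfold rS
  rw [card_product, card_singleton, mul_one, Int.card_Ioo]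
  have h1 : 0 < ⌈ω (m l) / a⌉₊ := Nat.ceil_pos.2 (div_pos (hω _) ha)
  omega

theorem SSS_sub {m : ℕ → ℕ} {L : ℕ} {a b : ℝ} (ha : 0 < a) (hb : 0 < b) (ω : ℕ → ℝ) :
    SSS m L a b ω ⊆ ↑((range L).biUnion (rS m a b ω)) := by
  rintro ⟨x, y⟩ ⟨h1, h2, h3, h4⟩
  simp only at h1 h2 h3 h4
  obtain ⟨l, rfl⟩ := Int.eq_ofNat_of_zero_le h1
  rw [Int.toNat_natCast] at h3 h4
  rw [Finset.mem_coe, mem_biUnion]
  refine ⟨l, ?_, ?_⟩
  · rw [mem_range]
    exact_mod_cast h2
  · unfold rS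
    rw [mem_product, mem_Ioo, mem_singleton]
    refine ⟨⟨?_, ?_⟩, rfl⟩
    · have h5 : (-(x : ℝ)) < ω (m l) / b := by
        rw [lt_div_iff₀ hb]; linarith
      have h6 : (-(x : ℝ)) < (⌈ω (m l) / b⌉₊ : ℝ) := h5.trans_le (Nat.le_ceil _)
      have h7 : -x < (⌈ω (m l) / b⌉₊ : ℤ) := by exact_mod_cast h6
      show -(⌈ω (m l) / b⌉₊ : ℤ) < x
      omega
    · have h5 : (x : ℝ) < ω (m l) / a := by
        rw [lt_div_iff₀ ha]; linarith
      have h6 : (x : ℝ) < (⌈ω (m l) / a⌉₊ : ℝ) := h5.trans_le (Nat.le_ceil _)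
      show x < (⌈ω (m l) / a⌉₊ : ℤ)
      exact_mod_cast h6

theorem card_rW (m : ℕ → ℕ) {l : ℕ} (hl : 1 ≤ m l) : (rW m l).card = 2 * m l := by
  unfold rW
  rw [card_union_of_disjoint]
  · rw [card_product, card_product, card_singleton, card_singleton, Int.card_Icc, Int.card_Icc]
    omega
  · rw [Finset.disjoint_left]
    rintro ⟨x, y⟩ h1 h2
    rw [mem_product, mem_singleton] at h1 h2
    have := h1.2
    have := h2.2
    simp only at *
    omega

theorem rW_sub {m : ℕ → ℕ} {L l : ℕ} (hl : l < L) : ↑(rW m l) ⊆ WMS m L := by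
  rintro ⟨x, y⟩ h
  unfold rW at h
  rw [Finset.mem_coe, mem_union, mem_product, mem_product, mem_singleton, mem_singleton, mem_Icc,
    mem_Icc] at h
  rcases h with ⟨⟨h1, h2⟩, h3⟩ | ⟨⟨h1, h2⟩, h3⟩
  · simp only at h1 h2 h3
    subst h3
    refine ⟨h1, by positivity, by simp only; omega, ?_⟩
    simp only
    have e1 : (2 * (l : ℤ)) % 2 = 0 := by omega
    have e2 : (2 * (l : ℤ)) / 2 = l := by omega
    rw [e1, e2, Int.toNat_natCast]
    omega
  · simp only at h1 h2 h3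
    subst h3
    refine ⟨h1, by positivity, by simp only; omega, ?_⟩
    simp only
    have e1 : (2 * (l : ℤ) + 1) % 2 = 1 := by omega
    have e2 : (2 * (l : ℤ) + 1) / 2 = l := by omega
    rw [e1, e2, Int.toNat_natCast]
    omega

theorem seq (hK : StKey) : StSeq := by
  intro κ _ w m L hm hm1 x y hx hy hxy hirr h
  classical
  obtain ⟨a, ha⟩ : ∃ a : ℝ, a = 1 / x := ⟨_, rfl⟩
  obtain ⟨b, hb⟩ : ∃ b : ℝ, b = 1 / y := ⟨_, rfl⟩
  have ha0 : 0 < a := by rw [ha]; exact one_div_pos.2 hx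
  have hb0 : 0 < b := by rw [hb]; exact one_div_pos.2 hy
  have hω : ∀ W : ℕ, ∃ ω : ℝ, 0 < ω ∧ ⌈ω / a⌉₊ + ⌈ω / b⌉₊ = max (2 * W + 1) 2 := by
    intro W
    obtain ⟨ω, h1, h2⟩ := Pool.Agent.TH370.MN.exists_sum_ceil (J := Fin 2) (![a, b])
      (by intro j; fin_cases j <;> simp [ha0, hb0]) (by
        intro i j hij
        have e1 : a / b = y / x := by rw [ha, hb]; field_simp
        have e2 : b / a = x / y := by rw [ha, hb]; field_simp
        have g1 : Irrational (a / b) := by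
          rw [e1, ← inv_div]
          exact irrational_inv_iff.2 hirr
        have g2 : Irrational (b / a) := by rw [e2]; exact hirr
        fin_cases i <;> fin_cases j
        · exact absurd rfl hij
        · simpa using g1
        · simpa using g2
        · exact absurd rfl hij) (max (2 * W + 1) 2) (by
        rw [Fintype.card_fin]; exact le_max_right _ _)
    refine ⟨ω, h1, ?_⟩
    rw [← h2, Fin.sum_univ_two]
    rfl
  choose ω hω0 hω1 using hω
  have hω3 : ∀ W : ℕ, 2 * (W : ℝ) - 1 < ω W := by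
    intro W
    have e1 : ω W / a = ω W * x := by rw [ha, one_div, div_inv_eq_mul]
    have e2 : ω W / b = ω W * y := by rw [hb, one_div, div_inv_eq_mul]
    have g1 := Nat.ceil_lt_add_one (mul_nonneg (hω0 W).le hx.le)
    have g2 := Nat.ceil_lt_add_one (mul_nonneg (hω0 W).le hy.le)
    have h4 : ((2 * W + 1 : ℕ) : ℝ) ≤ ((⌈ω W / a⌉₊ + ⌈ω W / b⌉₊ : ℕ) : ℝ) := by
      rw [hω1 W]
      exact_mod_cast le_max_left _ _
    rw [e1, e2] at h4
    push_cast at h4
    have h5 : ω W * (x + y) ≤ ω W := mul_le_of_le_one_right (hω0 W).le hxy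
    linarith
  have key : Sur w (↑((range L).biUnion (rW m)) : Set (ℤ × ℤ)) := by
    refine transferF (S' := (range L).biUnion (rS m a b ω)) ?_ ?_ ?_
    · have c1 : ((range L).biUnion (rS m a b ω)).card ≤ ∑ l ∈ range L, 2 * m l := by
        refine card_biUnion_le.trans (sum_le_sum fun l hl => ?_)
        have h1 := card_rS m (b := b) ha0 hω0 l
        rw [hω1] at h1
        have h2 := hm1 l (mem_range.1 hl)
        rw [max_eq_left (by omega)] at h1
        omega
      refine c1.trans (le_of_eq ?_)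
      rw [card_biUnion]
      · exact sum_congr rfl fun l hl => (card_rW m (hm1 l (mem_range.1 hl))).symm
      · intro l _ l' _ hne
        rw [Function.onFun, Finset.disjoint_left]
        rintro ⟨x, y⟩ g1 g2
        unfold rW at g1 g2
        rw [mem_union, mem_product, mem_product, mem_singleton, mem_singleton] at g1 g2
        simp only at g1 g2
        omega
    · intro κ' _ v hv
      refine (hK (v := v) ha0 hb0 (ω := ω) (fun W => ⟨hω0 W, ?_⟩) (m := m) (L := L) hm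
        (hv.mono (SSS_sub ha0 hb0 ω))).mono ?_
      · rw [hω1 W]; exact le_max_left _ _
      · intro p hp
        rw [Finset.mem_coe, mem_biUnion] at hp
        obtain ⟨l, hl, hp⟩ := hp
        exact rW_sub (mem_range.1 hl) hp
    · refine h.mono (Set.Subset.trans ?_ (SSS_sub ha0 hb0 ω))
      rintro ⟨p, l⟩ ⟨hl, hlL, h1, h2⟩
      simp only at hl hlL h1 h2
      refine ⟨hl, hlL, ?_, ?_⟩
      · simp only
        have h3 := mul_lt_mul_of_pos_left (hω3 (m l.toNat)) hx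
        rw [ha, one_div_mul_eq_div, div_lt_iff₀ hx]
        linarith
      · simp only
        have h3 := mul_lt_mul_of_pos_left (hω3 (m l.toNat)) hy
        rw [hb, one_div_mul_eq_div, ← neg_div, div_lt_iff₀ hy]
        linarith
  refine key.mono ?_
  intro p hp
  rw [Finset.mem_coe, mem_biUnion] at hp
  obtain ⟨l, hl, hp⟩ := hp
  exact rW_sub (mem_range.1 hl) hp

end Pool.Agent.Y100.FW
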